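import Pool.Agent.helper86.NF.SpecC

/-!
# nf CZ2 (MP_4467b5_nt): class one zeros, `2/3 ≤ σ < 5/7`
-/

set_option autoImplicit false

open Complex MeasureTheory

namespace Pool.Agent.NF

open Pool.Agent.helper84.DM Pool.Agent.helper78.ED Pool.Agent.DH Pool.Agent.ZD

lemma CZ2_sep {ϑ T : ℝ} {W : Finset ℝ} (hT : 1 ≤ T) (hϑ : 0 ≤ ϑ) (h : Sep ϑ T W) : Sep 0 T W := by
  refine ⟨h.1, fun t ht t' ht' hne => ?_⟩
  refine le_trans ?_ (h.2 t ht t' ht' hne)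
  rw [Real.rpow_zero]
  exact Real.one_le_rpow hT hϑ

/-- **CZ2**. -/
theorem CZ2 (h1 : NPW_stmt) (h2 : NVM_stmt) (h3 : NMV_stmt) (h4 : NAA_stmt) (h5 : NVD_stmt)
    (h6 : NLD_stmt) : CZ2_stmt := by
  intro ε hε
  obtain ⟨ϑ₀, hϑ₀, hD⟩ := h5 ε hε
  refine ⟨ϑ₀, hϑ₀, fun ϑ hϑ hϑϑ δ hδ hδ4 => ?_⟩
  obtain ⟨κ₂, hκ₂, hκ₂1, hD2⟩ := hD ϑ hϑ hϑϑ
  obtain ⟨Tp, hTp⟩ := h1 δ hδ hδ4
  obtain ⟨κ₁, hκ₁, hκ₁1, hM⟩ := h2 ε (max 1 ⌊3 / δ⌋₊) hε (le_max_left _ _)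
  refine ⟨min κ₁ κ₂, lt_min hκ₁ hκ₂, (min_le_left _ _).trans hκ₁1, fun C₁ hC₁ => ?_⟩
  obtain ⟨Ca, Ta, hCa, hMa⟩ := hM C₁ hC₁
  obtain ⟨Cb, Tb, hCb, hDb⟩ := hD2 C₁ hC₁
  refine ⟨Ca * 2 + Cb * 3, max (max Ta Tb) (max Tp 1), by positivity, ?_⟩
  intro T hTT σ hσ hσ' N hN1 hN2 a ha W hW hlarge
  have hTa : Ta ≤ T := (le_max_left _ _).trans ((le_max_left _ _).trans hTT)
  have hTb : Tb ≤ T := (le_max_right _ _).trans ((le_max_left _ _).trans hTT)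
  have hTp' : Tp ≤ T := (le_max_left _ _).trans ((le_max_right _ _).trans hTT)
  have hT1 : 1 ≤ T := (le_max_right _ _).trans ((le_max_right _ _).trans hTT)
  have hT0 : 0 < T := by linarith
  have hw : wA σ = 9 / 4 * (1 - σ) := h4.2.1 σ hσ hσ'
  have hNp : 0 < (N : ℝ) := lt_of_lt_of_le (half_pos (Real.rpow_pos_of_pos hT0 _)) hN1
  have hN1' : 1 ≤ N := by
    have : (0 : ℕ) < N := by exact_mod_cast hNp
    omega
  have hNT : (N : ℝ) ≤ T := by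
    refine hN2.trans ?_
    calc T ^ (1 / 2 : ℝ) ≤ T ^ (1 : ℝ) := Real.rpow_le_rpow_of_exponent_le hT1 (by norm_num)
      _ = T := Real.rpow_one T
  have hTw : T ^ (wA σ + ε) = T ^ ε * T ^ (9 / 4 * (1 - σ)) := by
    rw [← Real.rpow_add hT0, hw]
    congr 1
    ring
  have hpos : 0 ≤ T ^ (wA σ + ε) := Real.rpow_nonneg hT0.le _
  rcases le_total (N : ℝ) (T ^ (3 / 8 : ℝ)) with hN | hN
  · obtain ⟨k, hk3, hkδ, hk1, hk2⟩ := hTp T hTp' N 3 (9 / 8) (by norm_num) (by norm_num) le_rfl hN1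
      (by
        refine hN.trans (le_of_eq ?_)
        congr 1
        norm_num)
    have hkK : k ≤ max 1 ⌊3 / δ⌋₊ := (Nat.le_floor hkδ).trans (le_max_right _ _)
    have hmain := hMa T hTa σ N k hN1' hNT (by omega) hkK a (fun n hn => (ha n hn).trans (by
      refine mul_le_mul_of_nonneg_left ?_ hC₁.le
      exact Real.rpow_le_rpow_of_exponent_le hT1 (min_le_left _ _))) W (CZ2_sep hT1 hϑ.le hW) hlarge
    have h7 := h3 T ((N : ℝ) ^ k) σ (9 / 4 * (1 - σ)) (9 / 8) hT1 (by positivity) (by linarith)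
      (by linarith) hk2 (by linarith) (by
        calc T ^ (1 - 9 / 4 * (1 - σ)) ≤ T ^ ((9 / 8 * ((3 : ℕ) / ((3 : ℕ) + 1)) : ℝ) * (2 * σ - 1)) := by
              refine Real.rpow_le_rpow_of_exponent_le hT1 ?_
              push_cast
              linarith
          _ = (T ^ (9 / 8 * ((3 : ℕ) / ((3 : ℕ) + 1)) : ℝ)) ^ (2 * σ - 1) := by
              rw [← Real.rpow_mul hT0.le]
          _ ≤ ((N : ℝ) ^ k) ^ (2 * σ - 1) :=
              Real.rpow_le_rpow (Real.rpow_nonneg hT0.le _) hk1 (by linarith))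
    calc (W.card : ℝ) ≤ Ca * T ^ ε * ((T + (N : ℝ) ^ k) * (N : ℝ) ^ k *
          ((N : ℝ) ^ k) ^ (-(2 * σ))) := hmain
      _ ≤ Ca * T ^ ε * (2 * T ^ (9 / 4 * (1 - σ))) := mul_le_mul_of_nonneg_left h7 (by positivity)
      _ = Ca * 2 * T ^ (wA σ + ε) := by rw [hTw]; ring
      _ ≤ (Ca * 2 + Cb * 3) * T ^ (wA σ + ε) :=
          mul_le_mul_of_nonneg_right (by linarith) hpos
  · have hmain := hDb T hTb σ hσ (by linarith) W hW N a hN hN2 (fun n hn => (ha n hn).trans (by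
      refine mul_le_mul_of_nonneg_left ?_ hC₁.le
      exact Real.rpow_le_rpow_of_exponent_le hT1 (min_le_right _ _))) hlarge
    have h7 := h6 T N σ hT1 hσ (by linarith) hN hN2
    calc (W.card : ℝ) ≤ _ := hmain
      _ ≤ Cb * T ^ ε * (3 * T ^ (9 / 4 * (1 - σ))) := mul_le_mul_of_nonneg_left h7 (by positivity)
      _ = Cb * 3 * T ^ (wA σ + ε) := by rw [hTw]; ring
      _ ≤ (Ca * 2 + Cb * 3) * T ^ (wA σ + ε) :=
          mul_le_mul_of_nonneg_right (by linarith) hpos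

end Pool.Agent.NF
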