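import Pool.Agent.helper86.NF.SpecC

/-!
# nf CZH (MP_4467b5_nt): long sums of length between `T^(1/2)` and `T^(1/2+δ)`
-/

set_option autoImplicit false

open Complex MeasureTheory

namespace Pool.Agent.NF

open Pool.Agent.helper84.DM Pool.Agent.helper78.ED Pool.Agent.DH Pool.Agent.ZD

/-- **CZH**. -/
theorem CZH (h1 : NVM_stmt) (h2 : NMV_stmt) (h3 : NAA_stmt) : CZH_stmt := by
  intro ε hε
  obtain ⟨κ, hκ, hκ1, hK⟩ := h1 ε 2 hε (by norm_num)
  refine ⟨κ, hκ, hκ1, fun C₁ δ hC₁ hδ hδ4 => ?_⟩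
  obtain ⟨C, T₀, hC, hT⟩ := hK C₁ hC₁
  refine ⟨C * 2, max T₀ 1, by positivity, ?_⟩
  intro T hTT σ hσ hσ' N hN1 hN2 a ha W hW hlarge
  have hT0 : T₀ ≤ T := (le_max_left _ _).trans hTT
  have hT1 : 1 ≤ T := (le_max_right _ _).trans hTT
  have hTp : 0 < T := by linarith
  obtain ⟨-, -, -, hA4, hA5, -, -⟩ := h3
  have hw := hA4 σ hσ (by linarith)
  have hNp : 0 < (N : ℝ) := lt_of_lt_of_le (Real.rpow_pos_of_pos hTp _) hN1
  have hN1' : 1 ≤ N := by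
    have : (0 : ℕ) < N := by exact_mod_cast hNp
    omega
  have hNT : (N : ℝ) ≤ T := by
    refine hN2.trans ?_
    calc T ^ (1 / 2 + δ) ≤ T ^ (1 : ℝ) := Real.rpow_le_rpow_of_exponent_le hT1 (by linarith)
      _ = T := Real.rpow_one T
  have hmain := hT T hT0 σ N 2 hN1' hNT (by norm_num) (by norm_num) a ha W hW hlarge
  have hM1 : T ≤ (N : ℝ) ^ 2 := by
    have h := pow_le_pow_left₀ (Real.rpow_nonneg hTp.le _) hN1 2
    rw [← Real.rpow_natCast, ← Real.rpow_mul hTp.le] at h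
    norm_num at h
    exact h
  have hM2 : (N : ℝ) ^ 2 ≤ T ^ (1 + 2 * δ) := by
    have h := pow_le_pow_left₀ hNp.le hN2 2
    refine h.trans (le_of_eq ?_)
    rw [← Real.rpow_natCast, ← Real.rpow_mul hTp.le]
    congr 1
    push_cast
    ring
  have h4 := h2 T ((N : ℝ) ^ 2) σ (wA σ + 4 * δ) (1 + 2 * δ) hT1 (by positivity) hσ (by linarith)
    hM2 (by nlinarith) (by
      calc T ^ (1 - (wA σ + 4 * δ)) ≤ T ^ (2 * σ - 1) :=
            Real.rpow_le_rpow_of_exponent_le hT1 (by linarith)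
        _ ≤ ((N : ℝ) ^ 2) ^ (2 * σ - 1) := Real.rpow_le_rpow hTp.le hM1 (by linarith))
  calc (W.card : ℝ) ≤ C * T ^ ε * ((T + (N : ℝ) ^ 2) * (N : ℝ) ^ 2 * ((N : ℝ) ^ 2) ^ (-(2 * σ))) := hmain
    _ ≤ C * T ^ ε * (2 * T ^ (wA σ + 4 * δ)) :=
        mul_le_mul_of_nonneg_left h4 (by positivity)
    _ = C * 2 * (T ^ ε * T ^ (wA σ + 4 * δ)) := by ring
    _ = C * 2 * T ^ (wA σ + ε + 4 * δ) := by
        rw [← Real.rpow_add hTp]
        congr 2
        ring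

end Pool.Agent.NF
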